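import Pool.Agent.H27.ZF.TA
import Pool.Agent.H47.THN.Targets
import Pool.Agent.H34.ZN.Targets

/-!
Board zf (MP_52e316_nt), targets B: the family.
-/

set_option autoImplicit false

namespace Pool.Agent.H27.ZF

open MeasureTheory Pool.Agent.H27.L1.H34.GM Pool.Agent.H27.L1.H34.GZ Pool.Agent.H27.L1.H34.GU
  Pool.Agent.H27.L1.H34.GA
open Pool.Agent.H27.L1.H68.GHK (ip rt Hn)

/-- an orthonormal family of forms of size at most `P` with admissible weights -/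
structure Fam {m N : ℕ} [NeZero N] (T : ℕ → Finset (ZM m)) (D : Set (V m)) (P : ℝ) {S : Type}
    [Fintype S] [DecidableEq S] (F : S → Mat m → VN m N → ℂ) (lam : S → ℕ → ℂ) (W : S → ℝ) : Prop where
  cus : ∀ i, CusB m N T (F i) (lam i) ∧ Lip D (F i) P
  orth : Orthn D F
  nn : ∀ i, 0 ≤ W i
  wt : ∀ i, W i ≤ 1 ∨ (∃ mu : Fin m → ℂ, EigU m N T (F i) (lam i) mu ∧
      W i ≤ Pool.Agent.H27.L1.H34.GHK.pl mu) ∨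
    ((∀ j, j ≠ i → ∀ u : Mat m, u.det ≠ 0 → ip D (rt u (F i)) (F j) = 0) ∧
      W i ≤ (Hn (1 / (2 * (m : ℝ))) D (F i))⁻¹)

/-- the Euler product of a form -/
def T_EUL : Prop := ∀ (m N : ℕ) [NeZero N] (T : ℕ → Finset (ZM m)) (D : Set (V m)), SysZ m N T D →
  ∀ (F : Mat m → VN m N → ℂ) (lam : ℕ → ℂ), HecA m N T F lam → NZ F → ∃ q : ℕ → ℕ → ℂ, Eul m lam q

/-- random signs, with the length of the window (stronger than `T_RSG`) -/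
def T_RSP : Prop := ∀ (ι : Type) [Fintype ι] (W : ι → ℝ) (lam : ι → ℕ → ℂ) (r : ℕ) (P M : ℝ),
  (∀ i, 0 ≤ W i) → 1 ≤ P →
  (∀ b : ℕ → ℂ, (∀ n, ‖b n‖ ≤ 1) →
    ∑ i, ENNReal.ofReal (W i) * ∫⁻ t in Set.Icc (-P) P,
      ENNReal.ofReal (‖DB (lam i) b r (t * Complex.I)‖ ^ 2) ≤ ENNReal.ofReal M) → 0 ≤ M →
  2 * P * ∑ i, W i * ∑ n ∈ Bk r, ‖lam i n‖ ^ 2 ≤ M

/-- the large sieve in a window, all admissible weights, one dyadic block -/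
def T_LSF : Prop := ∀ (m : ℕ) (B ε : ℝ), 1 ≤ m → 1 ≤ B → 0 < ε → ∃ C : ℝ, 0 < C ∧
  ∀ (N : ℕ) [NeZero N] (T : ℕ → Finset (ZM m)) (D : Set (V m)), SysZ m N T D →
  ∀ P : ℝ, 1 ≤ P → ∀ (S : Type) [Fintype S] [DecidableEq S] (F : S → Mat m → VN m N → ℂ)
    (lam : S → ℕ → ℂ) (W : S → ℝ), Fam T D P F lam W →
  ∀ r : ℕ, (2 : ℝ) ^ r ≤ N * P ^ m → ∀ b : ℕ → ℂ, (∀ n, ‖b n‖ ≤ 1) →
  ∀ σ τ : ℝ, 0 ≤ σ → σ ≤ B →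
    ∑ i, ENNReal.ofReal (W i) * ∫⁻ t in Set.Icc (-P) P,
      ENNReal.ofReal (‖DB (lam i) b r (σ + (t + τ) * Complex.I)‖ ^ 2) ≤
    ENNReal.ofReal (C * ((N : ℝ) * P) ^ ε * ((N : ℝ) ^ m * P ^ (m ^ 2)) *
      (2 : ℝ) ^ ((r : ℝ) * (1 - 2 * σ)))

open Classical in
/-- the forms with large sums of squares of the coefficients -/
def T_BS : Prop := ∀ (m : ℕ) (ε : ℝ), 1 ≤ m → 0 < ε → ∃ C : ℝ, 0 < C ∧
  ∀ (N : ℕ) [NeZero N] (T : ℕ → Finset (ZM m)) (D : Set (V m)), SysZ m N T D →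
  ∀ P : ℝ, 1 ≤ P → ∀ (S : Type) [Fintype S] [DecidableEq S] (F : S → Mat m → VN m N → ℂ)
    (lam : S → ℕ → ℂ) (W : S → ℝ), Fam T D P F lam W → ∀ A : ℝ, 1 ≤ A →
    ∑ i, (if Sq (lam i) (N * P ^ m) A then 0 else W i) * P ≤
      C * ((N : ℝ) * P) ^ ε * ((N : ℝ) ^ m * P ^ (m ^ 2)) / A

open Classical in
/-- the pairs of a form and a window with large Dirichlet polynomials -/
def T_BD : Prop := ∀ (m : ℕ) (B ε : ℝ), 1 ≤ m → 1 ≤ B → 0 < ε → ∃ C : ℝ, 0 < C ∧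
  ∀ (N : ℕ) [NeZero N] (T : ℕ → Finset (ZM m)) (D : Set (V m)), SysZ m N T D →
  ∀ P : ℝ, 1 ≤ P → ∀ (S : Type) [Fintype S] [DecidableEq S] (F : S → Mat m → VN m N → ℂ)
    (lam : S → ℕ → ℂ) (W : S → ℝ), Fam T D P F lam W → ∀ z0 z A : ℝ, 1 ≤ A →
    ∑ i, W i * (((Finset.Icc (-⌊P⌋) ⌊P⌋).filter (fun k : ℤ => ∃ s : ℂ, 1 / 2 ≤ s.re ∧ s.re ≤ B ∧
      |s.im - k| ≤ B ∧ ¬ Dp m (lam i) (N * P ^ m) z0 z A s)).card : ℝ) ≤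
      C * ((N : ℝ) * P) ^ ε * ((N : ℝ) ^ m * P ^ (m ^ 2)) / A ^ 2

open Classical in
/-- the pairs of a form and a window with a large value of the L-function -/
def T_BL : Prop := ∀ (m : ℕ) (d B ε : ℝ), 1 ≤ m → 0 < d → d ≤ 1 → 1 ≤ B → 0 < ε → ∃ C : ℝ, 0 < C ∧
  ∀ (N : ℕ) [NeZero N] (T : ℕ → Finset (ZM m)) (D : Set (V m)), SysZ m N T D →
  ∀ P : ℝ, 1 ≤ P → ∀ (S : Type) [Fintype S] [DecidableEq S] (F : S → Mat m → VN m N → ℂ)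
    (lam : S → ℕ → ℂ) (W : S → ℝ), Fam T D P F lam W →
  ∀ L : S → ℂ → ℂ, (∀ i, IsL m 1 (lam i) (L i)) → ∀ A : ℝ, 1 ≤ A →
    ∑ i, W i * (((Finset.Icc (-⌊P⌋) ⌊P⌋).filter (fun k : ℤ => ∃ s : ℂ, 1 / 2 + d ≤ s.re ∧ s.re ≤ B ∧
      |s.im - k| ≤ B ∧ A < ‖L i s‖)).card : ℝ) ≤
      C * ((N : ℝ) * P) ^ ε * ((N : ℝ) ^ m * P ^ (m ^ 2)) / A ^ 4

open Classical in
/-- one level: few pairs of a form and a window with a zero -/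
def T_Z1 : Prop := ∀ (m : ℕ) (d : ℝ), 1 ≤ m → 0 < d → ∃ c C : ℝ, 0 < c ∧ 0 < C ∧
  ∀ (N : ℕ) [NeZero N] (T : ℕ → Finset (ZM m)) (D : Set (V m)), SysZ m N T D →
  ∀ P : ℝ, 1 ≤ P → ∀ (S : Type) [Fintype S] [DecidableEq S] (F : S → Mat m → VN m N → ℂ)
    (lam : S → ℕ → ℂ) (W : S → ℝ), Fam T D P F lam W →
  ∀ L : S → ℂ → ℂ, (∀ i, IsL m 1 (lam i) (L i)) →
    ∑ i, W i * (((Finset.Icc (-⌊P⌋) ⌊P⌋).filter (fun k : ℤ => ∃ s : ℂ, 1 / 2 + d ≤ s.re ∧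
      |s.im - k| ≤ 1 ∧ L i s = 0)).card : ℝ) ≤ C * ((N : ℝ) * P ^ m) ^ ((m : ℝ) - c)

end Pool.Agent.H27.ZF
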