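import Mathlib

/-!
Board zf (MP_52e316_nt), targets A (Mathlib only): almost all L-functions of GL(m) have no zeros with real part
at least `1/2 + δ`.
-/

set_option autoImplicit false

namespace Pool.Agent.H27.ZF

open MeasureTheory

/-! ### elementary symmetric sums -/

/-- Newton: a large power sum gives large elementary symmetric sums -/
def T_NEW : Prop := ∀ (ι : Type) [Fintype ι] [DecidableEq ι] (x : ι → ℂ) (a V : ℝ) (l : ℕ), 1 ≤ l →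
  (∀ i, ‖x i‖ ≤ a) → ∑ i, ‖x i‖ ^ 2 ≤ V → 4 * l * a ≤ ‖∑ i, x i‖ →
  8 * V * l ≤ ‖∑ i, x i‖ ^ 2 →
  (‖∑ i, x i‖ / 2) ^ l / (Nat.factorial l : ℝ) ≤
    ‖∑ S ∈ Finset.powersetCard l (Finset.univ : Finset ι), ∏ i ∈ S, x i‖

/-- elementary symmetric sums of nonnegative numbers from below -/
def T_ESL : Prop := ∀ (ι : Type) [Fintype ι] [DecidableEq ι] (x : ι → ℝ) (a : ℝ) (l : ℕ),
  (∀ i, 0 ≤ x i ∧ x i ≤ a) → 2 * l * a ≤ ∑ i, x i →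
  ((∑ i, x i) / 2) ^ l / (Nat.factorial l : ℝ) ≤
    ∑ S ∈ Finset.powersetCard l (Finset.univ : Finset ι), ∏ i ∈ S, x i

/-! ### complex analysis -/

/-- Hadamard's three circles -/
def T_HTC : Prop := ∀ r1 r2 r3 : ℝ, 0 < r1 → r1 < r2 → r2 < r3 → ∃ w : ℝ, 0 < w ∧ w < 1 ∧
  ∀ (D : ℂ → ℂ) (c : ℂ) (M1 M3 : ℝ), Differentiable ℂ D → 0 < M1 → M1 ≤ M3 →
  (∀ s, ‖s - c‖ ≤ r1 → ‖D s‖ ≤ M1) → (∀ s, ‖s - c‖ ≤ r3 → ‖D s‖ ≤ M3) →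
  ∀ s, ‖s - c‖ ≤ r2 → ‖D s‖ ≤ M1 ^ w * M3 ^ (1 - w)

/-- sup of an entire function over a rectangle from the mean squares of `f`, `f'`, `f''` -/
def T_SOB : Prop := ∀ b1 b2 : ℝ, b1 < b2 → ∃ C : ℝ, 0 < C ∧ ∀ (f : ℂ → ℂ) (P t0 : ℝ),
  Differentiable ℂ f → 1 ≤ P → ∀ s : ℂ, b1 ≤ s.re → s.re ≤ b2 → |s.im - t0| ≤ P →
  ENNReal.ofReal (‖f s‖ ^ 2) ≤ ENNReal.ofReal C * ∫⁻ σ in Set.Icc b1 b2, ∫⁻ t in Set.Icc (-P) P,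
    (ENNReal.ofReal (‖f (σ + (t + t0) * Complex.I)‖ ^ 2) +
      ENNReal.ofReal (‖deriv f (σ + (t + t0) * Complex.I)‖ ^ 2) +
      ENNReal.ofReal (‖deriv (deriv f) (σ + (t + t0) * Complex.I)‖ ^ 2))

/-! ### local factors -/

/-- `q` is the inverse of the power series `∑ h_k X^k`, and a polynomial of degree at most `m` -/
structure Inv (m : ℕ) (h q : ℕ → ℂ) : Prop where
  h0 : h 0 = 1
  q0 : q 0 = 1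
  deg : ∀ j, m < j → q j = 0
  conv : ∀ n, 1 ≤ n → ∑ j ∈ Finset.range (n + 1), q j * h (n - j) = 0

/-- the value of the polynomial -/
noncomputable def qv (m : ℕ) (q : ℕ → ℂ) (x : ℂ) : ℂ := ∑ j ∈ Finset.range (m + 1), q j * x ^ j

/-- all coefficients from `m` consecutive ones far out -/
def T_LOC : Prop := ∀ (m J : ℕ) (h q : ℕ → ℂ) (B : ℝ), 1 ≤ m → Inv m h q → 0 < B → 2 * m ≤ J →
  (∀ r, r < m → ‖h (J - r)‖ ≤ B ^ (J - r)) →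
  ∀ k, ‖h k‖ ≤ ((m + k).choose k : ℝ) * (2 * B) ^ k

/-- the inverse of a local factor against its linear and quadratic terms -/
def T_LQB : Prop := ∀ m : ℕ, ∃ C : ℝ, 0 < C ∧ ∀ (h q : ℕ → ℂ) (x : ℂ), Inv m h q →
  (∀ k, 1 ≤ k → k ≤ m → ‖h k * x ^ k‖ ≤ 1) →
  ‖qv m q x‖ ≤ Real.exp (-(∑ k ∈ Finset.Icc 1 m, h k * x ^ k).re +
    C * ∑ k ∈ Finset.Icc 1 m, ‖h k * x ^ k‖ ^ 2)

/-- trivial bound for the inverse of a local factor -/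
def T_LTB : Prop := ∀ (m : ℕ) (C0 : ℝ), 1 ≤ C0 → ∃ C : ℝ, 1 ≤ C ∧ ∀ (h q : ℕ → ℂ) (b : ℝ),
  Inv m h q → 1 ≤ b → (∀ k, k ≤ m → ‖h k‖ ≤ C0 * b ^ k) →
  ∀ x : ℂ, ‖x‖ ≤ 1 → ‖qv m q x‖ ≤ C * b ^ m

/-- the small primes -/
def T_PRI : Prop := ∀ (C : ℝ) (A : ℕ), 1 ≤ C → ∃ B : ℝ, 0 < B ∧ ∀ n : ℕ,
  ∏ p ∈ (Finset.range (n + 1)).filter Nat.Prime, (C * (p : ℝ) ^ A) ≤ Real.exp (B * n)

/-! ### Dirichlet series with an Euler product of degree at most `m` -/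

/-- multiplicative coefficients, every local factor is the inverse of a polynomial of degree at most `m` -/
structure Eul (m : ℕ) (lam : ℕ → ℂ) (q : ℕ → ℕ → ℂ) : Prop where
  one : lam 1 = 1
  mul : ∀ a b : ℕ, a.Coprime b → lam (a * b) = lam a * lam b
  loc : ∀ p : ℕ, p.Prime → Inv m (fun k => lam (p ^ k)) (q p)

/-- the Dirichlet series without the first factors of its Euler product -/
def T_EPR : Prop := ∀ (m : ℕ) (lam : ℕ → ℂ) (q : ℕ → ℕ → ℂ) (s : ℂ) (S : Finset ℕ),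
  Eul m lam q → (∀ p ∈ S, p.Prime) →
  Summable (fun n : ℕ => if 1 ≤ n then ‖lam n‖ * (n : ℝ) ^ (-s.re) else 0) →
  (∏ p ∈ S, qv m (q p) ((p : ℂ) ^ (-s))) *
      (∑' n : ℕ, if 1 ≤ n then lam n * (n : ℂ) ^ (-s) else 0) =
    ∑' n : ℕ, if 1 ≤ n ∧ ∀ p ∈ S, ¬ p ∣ n then lam n * (n : ℂ) ^ (-s) else 0

/-- the series over the integers without small prime factors, far to the right -/
def T_TAI : Prop := ∀ (m : ℕ) (C0 : ℝ), 1 ≤ C0 → ∃ C : ℝ, 1 ≤ C ∧ ∀ lam : ℕ → ℂ, lam 1 = 1 →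
  (∀ n : ℕ, 1 ≤ n → ‖lam n‖ ≤ C0 * (n : ℝ) ^ m) → ∀ z : ℕ, 1 ≤ z → ∀ s : ℂ, (m : ℝ) + 4 ≤ s.re →
  ‖(∑' n : ℕ, if 1 ≤ n ∧ ∀ p ∈ (Finset.range (z + 1)).filter Nat.Prime, ¬ p ∣ n then
    lam n * (n : ℂ) ^ (-s) else 0) - 1‖ ≤ C / z

/-! ### Dirichlet polynomials in dyadic blocks -/

/-- the block `(2^r / 2, 2^r]` -/
def Bk (r : ℕ) : Finset ℕ := Finset.Ioc (2 ^ r / 2) (2 ^ r)

/-- the Dirichlet polynomial over the block -/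
noncomputable def DB (lam b : ℕ → ℂ) (r : ℕ) (s : ℂ) : ℂ :=
  ∑ n ∈ Bk r, b n * lam n * (n : ℂ) ^ (-s)

open Classical in
/-- indicator of the products of `l` different `k`-th powers of the primes of `U` -/
noncomputable def bb (U : Finset ℕ) (k l : ℕ) (n : ℕ) : ℂ :=
  if ∃ S ∈ Finset.powersetCard l U, n = ∏ p ∈ S, p ^ k then 1 else 0

/-- elementary symmetric sum of the `lam (p ^ k) p ^ (-k s)`, `p` in `U` -/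
noncomputable def ES (lam : ℕ → ℂ) (U : Finset ℕ) (k l : ℕ) (s : ℂ) : ℂ :=
  ∑ S ∈ Finset.powersetCard l U, ∏ p ∈ S, (lam (p ^ k) * (p : ℂ) ^ (-((k : ℂ) * s)))

/-- the primes of the block `(2^(j-1), 2^j]` which are larger than `z0` and at most `z` -/
noncomputable def UP (z0 z : ℝ) (j : ℕ) : Finset ℕ :=
  (Finset.Ioc (2 ^ (j - 1)) (2 ^ j)).filter fun p => p.Prime ∧ z0 < (p : ℝ) ∧ (p : ℝ) ≤ z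

/-- the elementary symmetric sum as a sum of Dirichlet polynomials over blocks -/
def T_ESD : Prop := ∀ (m : ℕ) (lam : ℕ → ℂ) (q : ℕ → ℕ → ℂ), Eul m lam q →
  ∀ (z0 z : ℝ) (j k l : ℕ), 1 ≤ j → 1 ≤ k → 1 ≤ l → ∀ s : ℂ,
  ES lam (UP z0 z j) k l s =
    ∑ r ∈ Finset.Icc ((j - 1) * k * l + 1) (j * k * l), DB lam (bb (UP z0 z j) k l) r s

/-- the elementary symmetric sum of the squares, from the mean squares over blocks -/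
def T_ESQ : Prop := ∀ (m : ℕ) (lam : ℕ → ℂ) (q : ℕ → ℕ → ℂ), Eul m lam q →
  ∀ (z0 z : ℝ) (j k l : ℕ), 1 ≤ j → 1 ≤ k → 1 ≤ l → ∀ σ : ℝ, 0 ≤ σ →
  ∑ S ∈ Finset.powersetCard l (UP z0 z j), ∏ p ∈ S, (‖lam (p ^ k)‖ ^ 2 * (p : ℝ) ^ (-(2 * k * σ))) ≤
    ∑ r ∈ Finset.Icc ((j - 1) * k * l + 1) (j * k * l),
      (2 : ℝ) ^ (-(2 * σ * ((r : ℝ) - 1))) * ∑ n ∈ Bk r, ‖lam n‖ ^ 2

/-- random signs: if all Dirichlet polynomials with bounded coefficients are small in the mean, so is the sum of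
the squares -/
def T_RSG : Prop := ∀ (ι : Type) [Fintype ι] (W : ι → ℝ) (lam : ι → ℕ → ℂ) (r : ℕ) (P M : ℝ),
  (∀ i, 0 ≤ W i) → 1 ≤ P →
  (∀ b : ℕ → ℂ, (∀ n, ‖b n‖ ≤ 1) →
    ∑ i, ENNReal.ofReal (W i) * ∫⁻ t in Set.Icc (-P) P,
      ENNReal.ofReal (‖DB (lam i) b r (t * Complex.I)‖ ^ 2) ≤ ENNReal.ofReal M) → 0 ≤ M →
  ∑ i, W i * ∑ n ∈ Bk r, ‖lam i n‖ ^ 2 ≤ M

/-! ### the deterministic part -/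

/-- the bounds for the sums of squares over the blocks up to `Q` -/
def Sq (lam : ℕ → ℂ) (Q A : ℝ) : Prop :=
  ∀ r : ℕ, (2 : ℝ) ^ r ≤ Q → ∑ n ∈ Bk r, ‖lam n‖ ^ 2 ≤ A * 2 ^ r

/-- the number of factors of the products -/
noncomputable def lf (Q : ℝ) (j k : ℕ) : ℕ := ⌊Real.log Q / (j * k * Real.log 2)⌋₊

/-- the bounds for the Dirichlet polynomials `DB lam (bb (UP z0 z j) k (lf Q j k)) r s` with `2^r ≤ Q` -/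
def Dp (m : ℕ) (lam : ℕ → ℂ) (Q z0 z A : ℝ) (s : ℂ) : Prop :=
  ∀ j k r : ℕ, 1 ≤ j → 1 ≤ k → k ≤ m → (2 : ℝ) ^ j ≤ Q → (2 : ℝ) ^ r ≤ Q →
    ‖DB lam (bb (UP z0 z j) k (lf Q j k)) r s‖ ≤ A * (2 : ℝ) ^ (-((r : ℝ) * (s.re - 1 / 2)))

/-- local bounds from the sums of squares -/
def T_LBD : Prop := ∀ m : ℕ, 1 ≤ m → ∃ C : ℝ, 1 ≤ C ∧ ∀ (lam : ℕ → ℂ) (q : ℕ → ℕ → ℂ) (Q c : ℝ),
  Eul m lam q → 1 ≤ Q → 0 < c → c ≤ 1 → Sq lam Q (Q ^ (2 * c)) →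
  ∀ p : ℕ, p.Prime → (p : ℝ) ^ (4 * m) ≤ Q → ∀ k : ℕ, k ≤ m →
    ‖lam (p ^ k)‖ ≤ C * (p : ℝ) ^ (k * (1 / 2 + 4 * c))

/-- the middle primes of one block -/
def T_MID : Prop := ∀ (m : ℕ) (d : ℝ), 1 ≤ m → 0 < d → d ≤ 1 / 2 → ∃ (c : ℝ) (C z1 : ℝ), 0 < c ∧ 0 < C ∧
  1 ≤ z1 ∧ ∀ (lam : ℕ → ℂ) (q : ℕ → ℕ → ℂ) (Q z0 z : ℝ), Eul m lam q → 1 ≤ Q → z1 ≤ z0 →
  z ^ (4 * m) ≤ Q → Sq lam Q (Q ^ (2 * c)) → ∀ s : ℂ, 1 / 2 + d ≤ s.re → Dp m lam Q z0 z (Q ^ c) s →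
  ∀ j k : ℕ, 1 ≤ j → 1 ≤ k → k ≤ m →
    (∀ p ∈ UP z0 z j, ‖lam (p ^ k) * (p : ℂ) ^ (-((k : ℂ) * s))‖ ≤ 1) ∧
    ‖∑ p ∈ UP z0 z j, lam (p ^ k) * (p : ℂ) ^ (-((k : ℂ) * s))‖ +
      ∑ p ∈ UP z0 z j, ‖lam (p ^ k) * (p : ℂ) ^ (-((k : ℂ) * s))‖ ^ 2 ≤
        C * Real.log Q * (2 : ℝ) ^ (-((j : ℝ) * (d / 16)))

/-- the product of the inverses of the local factors -/
def T_PRD : Prop := ∀ (m : ℕ) (d C0 : ℝ), 1 ≤ m → 0 < d → d ≤ 1 / 2 → 1 ≤ C0 → ∃ c : ℝ, 0 < c ∧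
  ∀ η : ℝ, 0 < η → ∃ k0 Q0 : ℝ, 0 < k0 ∧ 1 ≤ Q0 ∧ ∀ (lam : ℕ → ℂ) (q : ℕ → ℕ → ℂ) (Q : ℝ), Q0 ≤ Q →
  Eul m lam q → (∀ n : ℕ, 1 ≤ n → ‖lam n‖ ≤ C0 * (n : ℝ) ^ m) → Sq lam Q (Q ^ (2 * c)) →
  ∀ z : ℝ, z ^ (4 * m) ≤ Q → ∀ s : ℂ, 1 / 2 + d ≤ s.re →
    Dp m lam Q (k0 * Real.log Q) z (Q ^ c) s →
    ‖∏ p ∈ (Finset.range (⌊z⌋₊ + 1)).filter Nat.Prime, qv m (q p) ((p : ℂ) ^ (-s))‖ ≤ Q ^ η

/-- no zeros -/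
def T_NZR : Prop := ∀ (m : ℕ) (d C0 : ℝ), 1 ≤ m → 0 < d → d ≤ 1 / 2 → 1 ≤ C0 →
  ∃ c k0 B Q0 : ℝ, 0 < c ∧ 0 < k0 ∧ 1 ≤ B ∧ 1 ≤ Q0 ∧
  ∀ (lam : ℕ → ℂ) (q : ℕ → ℕ → ℂ) (L : ℂ → ℂ) (Q t : ℝ), Q0 ≤ Q → Eul m lam q →
  (∀ n : ℕ, 1 ≤ n → ‖lam n‖ ≤ C0 * (n : ℝ) ^ m) → Differentiable ℂ L →
  (∀ s : ℂ, (m : ℝ) + 2 < s.re →
    HasSum (fun n : ℕ => if 1 ≤ n then lam n * (n : ℂ) ^ (-s) else 0) (L s)) →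
  Sq lam Q (Q ^ (2 * c)) →
  (∀ s : ℂ, 1 / 2 + d / 2 ≤ s.re → s.re ≤ B → |s.im - t| ≤ B →
    ‖L s‖ ≤ Q ^ c ∧ Dp m lam Q (k0 * Real.log Q) (Q ^ (1 / (4 * (m : ℝ)))) (Q ^ c) s) →
  ∀ s : ℂ, 1 / 2 + d ≤ s.re → s.im = t → L s ≠ 0

end Pool.Agent.H27.ZF
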