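import Pool.Agent.H27.ZF.TB

/-!
Board zf (MP_52e316_nt), targets C: the number of the zeros, and the universal family.
-/

set_option autoImplicit false

namespace Pool.Agent.H27.ZF

open MeasureTheory Pool.Agent.H27.L1.H34.GM Pool.Agent.H27.L1.H34.GZ Pool.Agent.H27.L1.H34.GU
  Pool.Agent.H27.L1.H34.GA

/-- all the zeros in one window, for every form (from `T_ZRO` and the fourth moment of the one form `F`) -/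
def T_ZW : Prop := ∀ (m : ℕ) (d : ℝ), 1 ≤ m → 0 < d → ∃ C : ℝ, 0 < C ∧
  ∀ (N : ℕ) [NeZero N] (T : ℕ → Finset (ZM m)) (D : Set (V m)), SysZ m N T D →
  ∀ (F : Mat m → VN m N → ℂ) (lam : ℕ → ℂ) (P : ℝ), CusB m N T F lam →
  nU D F = 1 → Lip D F P → 1 ≤ P → ∀ L : ℂ → ℂ, IsL m 1 lam L → ∀ t : ℝ, |t| ≤ P →
  ∀ Z : Finset ℂ, (∀ ρ ∈ Z, 1 / 2 + d ≤ ρ.re ∧ |ρ.im - t| ≤ 1) →
    ∑ ρ ∈ Z, (analyticOrderNatAt L ρ : ℝ) ≤ C * (1 + Real.log (N * P))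

/-- one level: the zero density theorem (from `T_Z1` and `T_ZW`) -/
def T_Z2 : Prop := ∀ (m : ℕ) (d : ℝ), 1 ≤ m → 0 < d → ∃ c C : ℝ, 0 < c ∧ 0 < C ∧
  ∀ (N : ℕ) [NeZero N] (T : ℕ → Finset (ZM m)) (D : Set (V m)), SysZ m N T D →
  ∀ P : ℝ, 1 ≤ P → ∀ (S : Type) [Fintype S] [DecidableEq S] (F : S → Mat m → VN m N → ℂ)
    (lam : S → ℕ → ℂ) (W : S → ℝ), Fam T D P F lam W →
  ∀ L : S → ℂ → ℂ, (∀ i, IsL m 1 (lam i) (L i)) →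
  ∀ Z : S → Finset ℂ, (∀ i, ∀ ρ ∈ Z i, 1 / 2 + d ≤ ρ.re ∧ |ρ.im| ≤ P) →
    ∑ i, W i * ∑ ρ ∈ Z i, (analyticOrderNatAt (L i) ρ : ℝ) ≤ C * ((N : ℝ) * P ^ m) ^ ((m : ℝ) - c)

/-- the universal family, from power savings at every level (from `universal_sum_w`) -/
def T_UNI : Prop := ∀ (m : ℕ) (c : ℝ), 1 ≤ m → 0 < c → ∃ c' C : ℝ, 0 < c' ∧ 0 < C ∧
  ∀ C1 : ℝ, 0 ≤ C1 → ∀ (S : ℕ → Type) [∀ N, Fintype (S N)] (P w v : ∀ N : ℕ, S N → ℝ),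
  (∀ N : ℕ, 1 ≤ N → ∀ i, 1 ≤ P N i ∧ 1 ≤ w N i ∧ w N i ≤ P N i ^ (m * (m - 1) / 2) ∧ 0 ≤ v N i) →
  (∀ N : ℕ, 1 ≤ N → ∀ Q : ℝ, 1 ≤ Q →
    ∑ i ∈ Finset.univ.filter (fun i : S N => P N i ≤ Q), w N i * v N i ≤
      C1 * ((N : ℝ) * Q ^ m) ^ ((m : ℝ) - c)) →
  ∀ X : ℝ, 1 ≤ X →
    ∑ N ∈ Finset.Icc 1 ⌊X⌋₊, ∑ i ∈ Finset.univ.filter
      (fun i : S N => (N : ℝ) ^ (m + 1) * P N i ^ (m ^ 2) ≤ w N i * X ^ (m + 1)), v N i ≤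
      C * C1 * X ^ ((m : ℝ) + 1 - c')

end Pool.Agent.H27.ZF
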